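import Pool.Agent.U81.AR.Lay
import Pool.Agent.K4H55.AB.Cls

/-!
The density of the admissible primes.
-/

set_option autoImplicit false

open NumberField IsDedekindDomain Filter Topology

namespace Pool.Agent.U81.AR

open Pool.Agent.W569.FM Pool.Agent.Y142 Pool.Agent.W401.Cheb
open Pool.Agent.W263.BSD (GoodPrime)
open Pool.Agent Pool.Agent.K4H55.AB

section
variable {ι : Type} [Finite ι] (a b : ι → ℤ) (n : ι → ℕ)
  (K : ι → Type) [∀ i, Field (K i)] [∀ i, NumberField (K i)]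

omit [Finite ι] in
/-- the admissible primes: the cubics have no roots -/
def AN : Set ℕ := {q | q.Prime ∧ q ≠ 2 ∧ ∀ i, GoodPrime (a i) (b i) q ∧ ¬ q ∣ n i ∧
  ∀ v : HeightOneSpectrum (𝓞 (K i)), ((q : ℕ) : 𝓞 (K i)) ∈ v.asIdeal →
    ∀ X : 𝓞 (K i), X ^ 3 + (a i : 𝓞 (K i)) * X + (b i : 𝓞 (K i)) ∉ v.asIdeal}

omit [Finite ι] in
lemma an_sub : AN a b n K ⊆ AK a b n K := by
  rintro q ⟨h1, h2, h3⟩
  exact ⟨h1, h2, fun i => ⟨(h3 i).1, (h3 i).2.1, fun v hv => ptv_even h1 h2 v hv ((h3 i).2.2 v hv)⟩⟩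

omit [Finite ι] in
lemma an_adm (i : ι) : AdmK (a i) (b i) (n i) (K i) (AN a b n K) :=
  ⟨fun q hq => ⟨hq.1, hq.2.1⟩, fun q hq => (hq.2.2 i).1, fun q hq => (hq.2.2 i).2.1,
    fun q hq => (hq.2.2 i).2.2⟩

theorem an_density (hΔ : ∀ i, 4 * a i ^ 3 + 27 * b i ^ 2 ≠ 0)
    (hn : ∀ i, n i ≠ 0) (g : GF ℚ) (hgK : ∀ i, ∀ τ : GF ℚ, τ⁻¹ * g * τ ∈ Pool.Agent.Y142.HH ℚ (K i))
    (hg : ∀ i, ∀ t : AlgebraicClosure ℚ, Rt (a i) (b i) t → g t ≠ t) :
    ∃ d : ℝ, 0 < d ∧ ∀ B : Set ℕ, B.Finite → ∀ᶠ N : ℕ in atTop,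
      d * (N / Real.log N) ≤ Cnt.cA (AN a b n K \ B) N := by
  classical
  -- the field of the points of order two
  let S : Set (AlgebraicClosure ℚ) := {t | ∃ i, Rt (a i) (b i) t}
  have hS : S.Finite := by
    choose t1 t2 t3 h1 h2 h3 hsp using fun i => exists_split (a i) (b i) (AlgebraicClosure ℚ)
    refine ((Set.finite_range t1).union ((Set.finite_range t2).union (Set.finite_range t3))).subset ?_
    rintro t ⟨i, ht⟩
    unfold Rt at ht
    rw [hsp] at ht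
    rcases mul_eq_zero.1 ht with h4 | h4
    · rcases mul_eq_zero.1 h4 with h4 | h4
      · exact Or.inl ⟨i, (sub_eq_zero.1 h4).symm⟩
      · exact Or.inr (Or.inl ⟨i, (sub_eq_zero.1 h4).symm⟩)
    · exact Or.inr (Or.inr ⟨i, (sub_eq_zero.1 h4).symm⟩)
  have hSf : Finite S := hS.to_subtype
  let E : IntermediateField ℚ (AlgebraicClosure ℚ) := IntermediateField.adjoin ℚ S
  have hE : FiniteDimensional ℚ E := IntermediateField.finiteDimensional_adjoin fun t _ =>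
    ((AlgebraicClosure.isAlgebraic ℚ).isAlgebraic t).isIntegral
  let W1 : Subgroup (GF ℚ) := E.fixingSubgroup
  have hW1 : IsOpen (W1 : Set (GF ℚ)) := E.fixingSubgroup_isOpen
  let W : Subgroup (GF ℚ) := W1 ⊓ ⨅ i, Pool.Agent.Y142.HH ℚ (K i)
  have hW : IsOpen (W : Set (GF ℚ)) := by
    have e1 : (W : Set (GF ℚ)) = (W1 : Set (GF ℚ)) ∩
        ⋂ i, (Pool.Agent.Y142.HH ℚ (K i) : Set (GF ℚ)) := by
      rw [Subgroup.coe_inf, Subgroup.coe_iInf]
    rw [e1]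
    exact hW1.inter (isOpen_iInter_of_finite fun i => isOpen_HH)
  have hWf : Finite (GF ℚ ⧸ W) := Subgroup.quotient_finite_of_isOpen W hW
  have hWi : W.FiniteIndex := Subgroup.finiteIndex_of_finite_quotient
  have hWc : IsClosed (W : Set (GF ℚ)) := W.isClosed_of_isOpen hW
  have hU : IsOpen (W.normalCore : Set (GF ℚ)) :=
    Subgroup.isOpen_of_isClosed_of_finiteIndex _ (W.normalCore_isClosed hWc)
  obtain ⟨d, hd, h1⟩ := density_lower W.normalCore hU g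
  refine ⟨d / 2, by positivity, fun B hB => ?_⟩
  -- the finite set of the bad primes
  let B0 : Set ℕ := {2} ∪ ⋃ i, {q | (q : ℤ) ∣ 2 * (4 * a i ^ 3 + 27 * b i ^ 2) ∨ q ∣ n i}
  have hB0 : B0.Finite := by
    refine (Set.finite_singleton 2).union (Set.finite_iUnion fun i => ?_)
    refine Set.Finite.subset (Set.finite_Iic
      ((2 * (4 * a i ^ 3 + 27 * b i ^ 2)).natAbs + n i)) ?_
    rintro q (h | h)
    · have h2 := Nat.le_of_dvd (Int.natAbs_pos.2 (mul_ne_zero two_ne_zero (hΔ i)))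
        (Int.natCast_dvd.1 h)
      exact h2.trans (Nat.le_add_right _ _)
    · exact (Nat.le_of_dvd (Nat.pos_of_ne_zero (hn i)) h).trans (Nat.le_add_left _ _)
  filter_upwards [remove hd h1 (hB.union hB0)] with N hN
  refine hN.trans ?_
  have h2 : X0 W.normalCore g \ (B ∪ B0) ⊆ AN a b n K \ B := by
    rintro q ⟨⟨hq, P, σ, hP, hqP, hσ, hu⟩, hqB⟩
    rw [Set.mem_union, not_or] at hqB
    refine ⟨?_, hqB.1⟩
    have hB1 : q ≠ 2 ∧ ∀ i, ¬ (q : ℤ) ∣ 2 * (4 * a i ^ 3 + 27 * b i ^ 2) ∧ ¬ q ∣ n i := by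
      have h3 := hqB.2
      simp only [B0, Set.mem_union, Set.mem_singleton_iff, Set.mem_iUnion, not_or, not_exists] at h3
      exact ⟨h3.1, fun i => not_or.1 (h3.2 i)⟩
    refine ⟨hq, hB1.1, fun i => ⟨⟨hq, fun h => (hB1.2 i).1 ?_⟩, (hB1.2 i).2, fun v hv X => ?_⟩⟩
    · have e : 2 * (4 * a i ^ 3 + 27 * b i ^ 2) = -(2 * (-4 * a i ^ 3 - 27 * b i ^ 2)) := by ring
      rw [e]
      exact (Int.dvd_neg).2 h
    · refine no_root hq hP hqP hσ (hB1.2 i).1 (k := 1) ?_ ?_ v hv X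
      · intro τ
        have h4 : τ⁻¹ * σ ^ 1 * τ = (τ⁻¹ * g * τ) * (τ⁻¹ * (g⁻¹ * σ) * τ) := by group
        rw [h4]
        refine Subgroup.mul_mem _ (hgK i τ) ?_
        have h5 : τ⁻¹ * (g⁻¹ * σ) * τ ∈ W := by
          have h6 := hu τ⁻¹
          rwa [inv_inv] at h6
        exact Subgroup.mem_iInf.1 (Subgroup.mem_inf.1 h5).2 i
      · intro t ht
        rw [pow_one]
        have h4 : g⁻¹ * σ ∈ W := W.normalCore_le hu
        have h5 : (g⁻¹ * σ) t = t := by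
          have h6 := (IntermediateField.mem_fixingSubgroup_iff E (g⁻¹ * σ)).1
            (Subgroup.mem_inf.1 h4).1
          exact h6 t (IntermediateField.subset_adjoin ℚ S ⟨i, ht⟩)
        have h6 : σ t = g t := by
          have h7 : g ((g⁻¹ * σ) t) = σ t := by
            show (g * (g⁻¹ * σ)) t = σ t
            rw [mul_inv_cancel_left]
          rw [← h7, h5]
        rw [h6]
        exact hg i t ht
  exact_mod_cast cA_mono h2 N


end

/-- there is an automorphism which fixes the fields and moves the points of order two -/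
def Mov {ι : Type} (a b : ι → ℤ) (K : ι → Type) [∀ i, Field (K i)] [∀ i, NumberField (K i)] : Prop :=
  ∃ g : GF ℚ, (∀ i, ∀ (φ : K i →ₐ[ℚ] AlgebraicClosure ℚ) (x : K i), g (φ x) = φ x) ∧
    ∀ i, ∀ t : AlgebraicClosure ℚ, t ^ 3 + (a i : AlgebraicClosure ℚ) * t + b i = 0 → g t ≠ t

lemma gal_of {K : Type} [Field K] [NumberField K] {n : ℕ} (hn : n ≠ 0)
    (hK : Nonempty (K →ₐ[ℚ] CyclotomicField n ℚ)) : IsGalois ℚ K := by
  have i1 : NeZero n := ⟨hn⟩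
  have i3 : NeZero ((n : ℕ) : ℚ) := ⟨Nat.cast_ne_zero.2 hn⟩
  have i4 : IsCyclotomicExtension {n} ℚ (CyclotomicField n ℚ) :=
    CyclotomicField.isCyclotomicExtension n ℚ
  have i5 : IsAbelianGalois ℚ (CyclotomicField n ℚ) :=
    IsCyclotomicExtension.isAbelianGalois {n} ℚ (CyclotomicField n ℚ)
  obtain ⟨φ⟩ := hK
  have := IsAbelianGalois.of_algHom φ
  infer_instance

lemma mov_one {ι : Type} [Subsingleton ι] (a b : ι → ℤ) (n : ι → ℕ) (K : ι → Type)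
    [∀ i, Field (K i)] [∀ i, NumberField (K i)] (hn : ∀ i, n i ≠ 0)
    (hK : ∀ i, Nonempty (K i →ₐ[ℚ] CyclotomicField (n i) ℚ))
    (hΔ : ∀ i, 4 * a i ^ 3 + 27 * b i ^ 2 ≠ 0)
    (hr : ∀ i, ∀ x : K i, x ^ 3 + (a i : K i) * x + b i ≠ 0) : Mov a b K := by
  rcases isEmpty_or_nonempty ι with h | ⟨⟨i⟩⟩
  · exact ⟨1, fun i => (h.false i).elim, fun i => (h.false i).elim⟩
  · have hgal := gal_of (hn i) (hK i)
    obtain ⟨g, hg1, hg2⟩ := exists_moveK (K := K i) (hΔ i) (fun x hx => hr i x hx)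
    refine ⟨g, fun j φ x => ?_, fun j t ht => ?_⟩
    · obtain rfl : i = j := Subsingleton.elim _ _
      exact mem_HH_all hg1 φ x
    · obtain rfl : i = j := Subsingleton.elim _ _
      exact hg2 t ht

theorem dens_of_mov {ι : Type} [Finite ι] (a b : ι → ℤ) (n : ι → ℕ) (K : ι → Type)
    [∀ i, Field (K i)] [∀ i, NumberField (K i)] (hn : ∀ i, n i ≠ 0)
    (hΔ : ∀ i, 4 * a i ^ 3 + 27 * b i ^ 2 ≠ 0) (hm : Mov a b K) :
    ∃ d : ℝ, 0 < d ∧ ∀ B : Set ℕ, B.Finite → ∀ᶠ N : ℕ in atTop,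
      d * (N / Real.log N) ≤ Cnt.cA (AN a b n K \ B) N := by
  obtain ⟨g, hg1, hg2⟩ := hm
  exact an_density a b n K hΔ hn g (fun i τ => conj_mem_HH (hg1 i) τ) fun i t ht => hg2 i t ht

end Pool.Agent.U81.AR
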