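import Pool.Agent.U81.AR.Tup
import Pool.Agent.U81.MP.Lay

/-!
The Euler factors of a curve over `ℚ` over an extension of an abelian field.
-/

set_option autoImplicit false

open Complex Filter Topology UpperHalfPlane MatrixGroups CongruenceSubgroup
open NumberField IsDedekindDomain H300.HW

namespace Pool.Agent.U81.AR

open Finset Pool.Agent.Y18.BSD Pool.Agent.K4H55.AB
open Pool.Agent.W263.BSD (pointCount GoodPrime)
open Pool.Agent.H921R2.TatePole (below deg nm nm_eq)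
open W165.CE (fac fac_eq pw ap0 trace_good pw_luc av)
open Pool.Agent.K4H55.BD (low mem_low pv int_mem)
open Pool.Agent.K4H15.BW (efD)
open Pool.Agent.K4H55.CX (facF luc)
open Pool.Agent.U81.BX (fct)
open Pool.Agent.U81.MQ

section
variable {K : Type} [Field K] [NumberField K] {a b : ℤ} {N : ℕ}

/-- the coefficient at a place -/
noncomputable def cK (N : ℕ) (c : ℕ → ℂ) (I : Ideal (𝓞 K)) : ℂ :=
  pw (c (Ideal.absNorm I).minFac)
    (if (Ideal.absNorm I).minFac ∣ N then 0 else ((Ideal.absNorm I).minFac : ℂ))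
    ((Ideal.absNorm I).factorization (Ideal.absNorm I).minFac)

lemma pv_cast (a b : ℤ) (v : HeightOneSpectrum (𝓞 K)) :
    (Ideal.absNorm v.asIdeal : ℂ) - pv (a : 𝓞 K) (b : 𝓞 K) v = ((av a b v : ℤ) : ℂ) := by
  unfold pv av
  simp only [map_intCast]
  push_cast
  rfl

lemma below_mem (v : HeightOneSpectrum (𝓞 K)) : (((below v : ℕ) : 𝓞 K)) ∈ v.asIdeal :=
  (nm_eq v).2.2

lemma icast_mem (v : HeightOneSpectrum (𝓞 K)) {m : ℤ} :
    ((m : ℤ) : 𝓞 K) ∈ v.asIdeal ↔ ((below v : ℕ) : ℤ) ∣ m :=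
  int_mem (below v).2 (below_mem v)

lemma bad_cast (a b : ℤ) : (2 * (4 * (a : 𝓞 K) ^ 3 + 27 * (b : 𝓞 K) ^ 2)) =
    ((2 * (4 * a ^ 3 + 27 * b ^ 2) : ℤ) : 𝓞 K) := by
  push_cast
  ring

lemma bad_iff (v : HeightOneSpectrum (𝓞 K)) :
    2 * (4 * (a : 𝓞 K) ^ 3 + 27 * (b : 𝓞 K) ^ 2) ∈ v.asIdeal ↔
      ((below v : ℕ) : ℤ) ∣ 2 * (4 * a ^ 3 + 27 * b ^ 2) := by
  rw [bad_cast, icast_mem]

lemma good_of {p : ℕ} (hp : p.Prime) (h : ¬ (p : ℤ) ∣ 2 * (4 * a ^ 3 + 27 * b ^ 2)) :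
    GoodPrime a b p := ⟨hp, fun h1 => h (by
      have e : 2 * (4 * a ^ 3 + 27 * b ^ 2) = -(2 * (-4 * a ^ 3 - 27 * b ^ 2)) := by ring
      rw [e]
      exact (Int.dvd_neg).2 h1)⟩

lemma good_not {p : ℕ} (h : GoodPrime a b p) : ¬ (p : ℤ) ∣ 2 * (4 * a ^ 3 + 27 * b ^ 2) := by
  intro h1
  apply h.2
  have e : 2 * (-4 * a ^ 3 - 27 * b ^ 2) = -(2 * (4 * a ^ 3 + 27 * b ^ 2)) := by ring
  rw [e]
  exact (Int.dvd_neg).2 h1

variable {f : CuspForm (Gamma0 N : Subgroup (GL (Fin 2) ℝ)) 2}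

theorem cK_good (hf : IsFormOf a b N f) (v : HeightOneSpectrum (𝓞 K))
    (hv : 2 * (4 * (a : 𝓞 K) ^ 3 + 27 * (b : 𝓞 K) ^ 2) ∉ v.asIdeal) :
    ((N : ℕ) : 𝓞 K) ∉ v.asIdeal ∧
      cK N (co f) v.asIdeal = (Ideal.absNorm v.asIdeal : ℂ) - pv (a : 𝓞 K) (b : 𝓞 K) v := by
  rw [bad_iff] at hv
  obtain ⟨h1, h2⟩ := hf.points _ (good_of (below v).2 hv)
  refine ⟨fun h => h1 ?_, ?_⟩
  · have h3 : (((N : ℤ) : ℤ) : 𝓞 K) ∈ v.asIdeal := by exact_mod_cast h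
    rw [icast_mem] at h3
    exact_mod_cast h3
  · rw [pv_cast, trace_good v hv, ← pw_luc]
    unfold cK
    have hb : (Ideal.absNorm v.asIdeal).minFac = (below v : ℕ) := rfl
    have hd : (Ideal.absNorm v.asIdeal).factorization (Ideal.absNorm v.asIdeal).minFac = deg v := rfl
    rw [hd, hb, if_neg h1, h2]
    unfold ap0 pointCount
    push_cast
    rfl

lemma pw_zero {d : ℕ} (hd : 0 < d) : pw 0 0 d = 0 := by
  rcases d with _ | d
  · omega
  · rcases d with _ | d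
    · rfl
    · rw [pw]; ring

/-- **the Euler factors of the twists** -/
theorem ef_fac {T : Finset ℕ} (hT : ∀ q ∈ T, GoodPrime a b q) (v : HeightOneSpectrum (𝓞 K)) (s : ℂ)
    (hloc : ((below v : ℕ) : ℤ) ∣ 2 * (4 * a ^ 3 + 27 * b ^ 2) →
      jacobiSym ((below v : ℕ) : ℤ) (dd T) = 1) :
    efD (a : 𝓞 K) (b : 𝓞 K) ((N : ℕ) : 𝓞 K) (cK N (co f)) ((disc T : ℤ) : 𝓞 K) s v =
      fac (a * disc T ^ 2) (b * disc T ^ 3) (N * dd T) (cD f T) s v := by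
  have hTp : ∀ q ∈ T, q.Prime := fun q hq => (hT q hq).1
  have hb : (Ideal.absNorm v.asIdeal).minFac = (below v : ℕ) := rfl
  have hdg : (Ideal.absNorm v.asIdeal).factorization (Ideal.absNorm v.asIdeal).minFac = deg v := rfl
  have hDD : (2 * (4 * (a * disc T ^ 2) ^ 3 + 27 * (b * disc T ^ 3) ^ 2) : ℤ) =
      disc T ^ 6 * (2 * (4 * a ^ 3 + 27 * b ^ 2)) := by ring
  have hpd : ((below v : ℕ) ∣ dd T) ↔ (below v : ℕ) ∈ T := by
    constructor
    · intro h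
      unfold dd at h
      obtain ⟨q, hq, hpq⟩ := ((below v).2.prime.dvd_finsetProd_iff _).1 h
      rwa [(Nat.prime_dvd_prime_iff_eq (below v).2 (hTp q hq)).1 hpq]
    · intro h
      exact Finset.dvd_prod_of_mem (fun q => q) h
  have hDv : (((disc T : ℤ) : 𝓞 K) ∈ v.asIdeal) ↔ (below v : ℕ) ∈ T := by
    rw [icast_mem, dvd_disc hTp (below v).2]
  have hNv : (((N : ℕ) : 𝓞 K) ∈ v.asIdeal) ↔ (below v : ℕ) ∣ N := by
    have e : ((N : ℕ) : 𝓞 K) = (((N : ℤ) : ℤ) : 𝓞 K) := by push_cast; rfl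
    rw [e, icast_mem]
    exact_mod_cast Iff.rfl
  have hfm : (((2 * (4 * (a * disc T ^ 2) ^ 3 + 27 * (b * disc T ^ 3) ^ 2) : ℤ)) : 𝓞 K) ∈ v.asIdeal ↔
      (below v : ℕ) ∈ T ∨ ((below v : ℕ) : ℤ) ∣ 2 * (4 * a ^ 3 + 27 * b ^ 2) := by
    rw [hDD, icast_mem, (Nat.prime_iff_prime_int.1 (below v).2).dvd_mul]
    constructor
    · rintro (h | h)
      · exact Or.inl ((dvd_disc hTp (below v).2).1
          ((Nat.prime_iff_prime_int.1 (below v).2).dvd_of_dvd_pow h))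
      · exact Or.inr h
    · rintro (h | h)
      · exact Or.inl (dvd_pow ((dvd_disc hTp (below v).2).2 h) (by norm_num))
      · exact Or.inr h
  unfold efD fac
  by_cases hbad : ((below v : ℕ) : ℤ) ∣ 2 * (4 * a ^ 3 + 27 * b ^ 2)
  · have hnT : (below v : ℕ) ∉ T := fun h => good_not (hT _ h) hbad
    have h1 : ((below v : ℕ) ∣ N * dd T) ↔ (below v : ℕ) ∣ N := by
      rw [(below v).2.dvd_mul, hpd]
      tauto
    rw [if_pos ((bad_iff v).2 hbad), if_pos (hfm.2 (Or.inr hbad)), hdg, hb]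
    unfold cK cD
    rw [hdg, hb, hloc hbad]
    simp only [h1, hNv, Int.cast_one, one_mul]
  · rw [if_neg (fun h => hbad ((bad_iff v).1 h))]
    by_cases hD : (below v : ℕ) ∈ T
    · rw [if_pos (hDv.2 hD), if_pos (hfm.2 (Or.inl hD)), hdg, hb]
      have h1 : (below v : ℕ) ∣ N * dd T := (hpd.2 hD).mul_left N
      have h2 : jacobiSym ((below v : ℕ) : ℤ) (dd T) = 0 := by
        have : NeZero (dd T) := ⟨dd_ne_zero hTp⟩
        rw [jacobiSym.eq_zero_iff_not_coprime, Int.gcd_natCast_natCast]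
        intro h7
        exact (below v).2.one_lt.ne' (Nat.Coprime.eq_one_of_dvd h7 (hpd.2 hD))
      unfold cD
      rw [h2, if_pos h1, if_pos h1, Int.cast_zero, zero_mul, pw_zero (nm_eq v).2.1]
      simp
    · rw [if_neg (fun h => hD (hDv.1 h)), if_neg (fun h => (hfm.1 h).elim hD hbad)]
      have e1 : (a : 𝓞 K) * ((disc T : ℤ) : 𝓞 K) ^ 2 = ((a * disc T ^ 2 : ℤ) : 𝓞 K) := by
        push_cast; ring
      have e2 : (b : 𝓞 K) * ((disc T : ℤ) : 𝓞 K) ^ 3 = ((b * disc T ^ 3 : ℤ) : 𝓞 K) := by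
        push_cast; ring
      rw [e1, e2, pv_cast]

end

section
variable {K F : Type} [Field K] [NumberField K] [Field F] [NumberField F] [Algebra K F]
  {a b : ℤ} {N : ℕ} {f : CuspForm (Gamma0 N : Subgroup (GL (Fin 2) ℝ)) 2}

/-- **the Euler factors over the extension** -/
theorem fct_fac (u : HeightOneSpectrum (𝓞 F)) (s : ℂ)
    (hsp : 2 * (4 * (a : 𝓞 K) ^ 3 + 27 * (b : 𝓞 K) ^ 2) ∈ (low (K := K) u).asIdeal →
      Ideal.absNorm u.asIdeal = Ideal.absNorm (low (K := K) u).asIdeal) :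
    fct (a : 𝓞 K) (b : 𝓞 K) ((N : ℕ) : 𝓞 K) (cK N (co f)) s u = fac a b N (co f) s u := by
  have hmm : ∀ m : ℤ, ((m : ℤ) : 𝓞 K) ∈ (low (K := K) u).asIdeal ↔ ((m : ℤ) : 𝓞 F) ∈ u.asIdeal := by
    intro m
    rw [mem_low, map_intCast]
  unfold fct fac
  rw [bad_cast, hmm]
  by_cases hbad : ((2 * (4 * a ^ 3 + 27 * b ^ 2) : ℤ) : 𝓞 F) ∈ u.asIdeal
  · rw [if_pos hbad, if_pos hbad]
    have h1 := hsp (by rw [bad_cast, hmm]; exact hbad)
    have h2 : 2 ≤ Ideal.absNorm (low (K := K) u).asIdeal := U81.BX.two_le _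
    have hlog : Nat.log (Ideal.absNorm (low (K := K) u).asIdeal)
        (Ideal.absNorm (low (K := K) u).asIdeal) = 1 := by
      have := Nat.log_pow (b := Ideal.absNorm (low (K := K) u).asIdeal) (by omega) 1
      rwa [pow_one] at this
    unfold facF cK
    rw [h1, hlog]
    simp only [luc, pow_one]
    have hNv : (((N : ℕ) : 𝓞 K) ∈ (low (K := K) u).asIdeal) ↔
        (Ideal.absNorm (low (K := K) u).asIdeal).minFac ∣ N := by
      have e : ((N : ℕ) : 𝓞 K) = (((N : ℤ) : ℤ) : 𝓞 K) := by push_cast; rfl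
      rw [e, icast_mem]
      exact_mod_cast Iff.rfl
    by_cases hn : (Ideal.absNorm (low (K := K) u).asIdeal).minFac ∣ N
    · rw [if_pos (hNv.2 hn), if_pos hn, if_pos hn, add_zero]
    · rw [if_neg (fun h => hn (hNv.1 h)), if_neg hn, if_neg hn]
  · rw [if_neg hbad, if_neg hbad, map_intCast, map_intCast, pv_cast]

/-- the norm of the places which split -/
theorem norm_split [IsGalois K F] {D : ((F ≃ₐ[K] F) →* ℂˣ) → 𝓞 K}
    {x : ((F ≃ₐ[K] F) →* ℂˣ) → 𝓞 F} (h : Kum D x) (h8 : ∀ χ, (8 : 𝓞 K) ∣ D χ - 1)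
    (u : HeightOneSpectrum (𝓞 F)) (hM : ∀ χ, D χ ∉ (low (K := K) u).asIdeal ∧
      ∃ y : 𝓞 K, D χ - y ^ 2 ∈ (low (K := K) u).asIdeal) :
    Ideal.absNorm u.asIdeal = Ideal.absNorm (low (K := K) u).asIdeal := by
  obtain ⟨e, f, g, he, hf, hg, h4, h5, h6, h7, h9, -⟩ := nums (K := K) u
  have hdec : ∀ χ : (F ≃ₐ[K] F) →* ℂˣ, ∀ σ ∈ dec (K := K) u, χ σ = 1 := by
    intro χ σ hσ
    by_cases h2 : (2 : 𝓞 F) ∈ u.asIdeal
    · exact h.dec_eight u h2 (h8 χ) hσ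
    · obtain ⟨y, hy⟩ := (hM χ).2
      exact h.dec_of_sq u h2 (hM χ).1 (y := y) hy hσ
  have h10 := h.split u hdec
  rw [h10] at h6
  have hf1 : f = 1 := Nat.eq_one_of_mul_eq_one_left h6.symm
  rw [h9 u rfl, hf1, pow_one]

end

end Pool.Agent.U81.AR
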