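import Pool.Agent.U81.AR.Main

/-!
Euler products over the rational primes; the base field.
-/

set_option autoImplicit false

open NumberField IsDedekindDomain UpperHalfPlane MatrixGroups CongruenceSubgroup

namespace Pool.Agent.U81.AR

open Pool.Agent.H921R2.TatePole (below)
open Pool.Agent.Y18.BSD (dd disc IsFormOf co)

lemma below_eq {L : Type} [Field L] [NumberField L] (u : HeightOneSpectrum (𝓞 L)) (p : Nat.Primes) :
    below u = p ↔ ((p : ℕ) : 𝓞 L) ∈ u.asIdeal := by
  constructor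
  · rintro rfl
    exact below_mem u
  · intro h
    have h1 : (((p : ℕ) : ℤ) : 𝓞 L) ∈ u.asIdeal := by exact_mod_cast h
    have h2 : ((below u : ℕ) : ℤ) ∣ ((p : ℕ) : ℤ) := (icast_mem u).1 h1
    have h3 : (below u : ℕ) ∣ (p : ℕ) := by exact_mod_cast h2
    exact Subtype.ext ((Nat.prime_dvd_prime_iff_eq (below u).2 p.2).1 h3)

lemma fin_over {L : Type} [Field L] [NumberField L] (p : Nat.Primes) :
    Finite {u : HeightOneSpectrum (𝓞 L) // ((p : ℕ) : 𝓞 L) ∈ u.asIdeal} := by
  have h0 : Ideal.span {((p : ℕ) : 𝓞 L)} ≠ 0 := by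
    rw [Ne, Ideal.zero_eq_bot, Ideal.span_singleton_eq_bot]
    exact_mod_cast p.2.ne_zero
  have h1 := Ideal.finite_factors h0
  refine (h1.subset fun u hu => ?_).to_subtype
  show u.asIdeal ∣ _
  rw [Ideal.dvd_span_singleton]
  exact hu

/-- the product over the rational primes -/
theorem hasProd_primes {L : Type} [Field L] [NumberField L] {g : HeightOneSpectrum (𝓞 L) → ℂ} {G : ℂ}
    (h : HasProd g G) : HasProd (fun p : Nat.Primes =>
      ∏ᶠ u : {u : HeightOneSpectrum (𝓞 L) // ((p : ℕ) : 𝓞 L) ∈ u.asIdeal}, g u.1) G := by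
  classical
  rw [← (Equiv.sigmaFiberEquiv (below (K := L))).hasProd_iff] at h
  refine h.sigma fun p => ?_
  let e : {u : HeightOneSpectrum (𝓞 L) // below u = p} ≃
      {u : HeightOneSpectrum (𝓞 L) // ((p : ℕ) : 𝓞 L) ∈ u.asIdeal} :=
    Equiv.subtypeEquivRight fun u => below_eq u p
  have hf1 := fin_over (L := L) p
  have hf2 : Finite {u : HeightOneSpectrum (𝓞 L) // below u = p} := Finite.of_equiv _ e.symm
  have i1 := Fintype.ofFinite {u : HeightOneSpectrum (𝓞 L) // below u = p}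
  have h4 : (∏ᶠ u : {u : HeightOneSpectrum (𝓞 L) // ((p : ℕ) : 𝓞 L) ∈ u.asIdeal}, g u.1) =
      ∏ u : {u : HeightOneSpectrum (𝓞 L) // below u = p}, g u.1 := by
    rw [← finprod_comp_equiv e, finprod_eq_prod_of_fintype]
    rfl
  rw [h4]
  exact hasProd_fintype _

variable {K : Type} [Field K] [NumberField K] {a b : ℤ} {N : ℕ}
  {f : CuspForm (Gamma0 N : Subgroup (GL (Fin 2) ℝ)) 2}

lemma nvt_empty (h : NVF K a b f) : NVT K a b f ∅ := by
  obtain ⟨G, h1, h2, h3⟩ := h
  refine ⟨G, h1, fun s hs => ?_, h3⟩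
  have e1 : disc ∅ = 1 := by simp [disc]
  have e2 : dd ∅ = 1 := by simp [dd]
  rw [e1, e2, Pool.Agent.K4H55.AB.cD_empty, one_pow, one_pow, mul_one, mul_one, mul_one]
  exact h2 s hs

end Pool.Agent.U81.AR
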