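import Pool.Agent.U81.AR.Den
import Pool.Agent.U81.MP.Ind

/-!
Independent tuples.
-/

set_option autoImplicit false

open NumberField IsDedekindDomain Filter Topology WithZero

namespace Pool.Agent.U81.AR

open Pool.Agent.K4H55.AB (DC)
open Pool.Agent.U81.MP (sd dep_count small)

theorem ind_abs {A : Set ℕ} {pos : Prop} {P : Finset ℕ} {r : ℕ} (hr : 1 ≤ r) {ε : ℝ} (hε : 0 < ε)
    (hε1 : ε < 1) (Good Idp : (Fin r → ℤ) → Prop)
    (hNI : ∀ D : Fin r → ℤ, (∀ j, DC A pos P (D j)) → ¬ Idp D →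
      ∃ S : Finset (Fin r), S.Nonempty ∧ sd S (fun j => (D j).natAbs.primeFactors) = ∅)
    {C : ℕ} (hC : ∀ X : ℕ, Nat.card {D : Fin r → ℤ // ∀ j, DC A pos P (D j) ∧ |D j| ≤ X} ≤
        C * Nat.card {D : Fin r → ℤ // (∀ j, DC A pos P (D j) ∧ |D j| ≤ C * X) ∧ Good D})
    {X0 : ℕ} (hX0 : ∀ X : ℕ, X0 ≤ X → ((X : ℝ) / Real.log X ^ (1 - ε)) ^ r ≤
        Nat.card {D : Fin r → ℤ // (∀ j, DC A pos P (D j) ∧ |D j| ≤ X) ∧ Good D}) :
    (∃ C : ℕ, ∀ᶠ X : ℕ in atTop,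
        Nat.card {D : Fin r → ℤ // ∀ j, DC A pos P (D j) ∧ |D j| ≤ X} ≤
        C * Nat.card {D : Fin r → ℤ // (∀ j, DC A pos P (D j) ∧
          |D j| ≤ C * X) ∧ Good D ∧ Idp D}) ∧
      ∀ᶠ X : ℕ in atTop, ((X : ℝ) / Real.log X ^ (1 - ε / 2)) ^ r ≤
        Nat.card {D : Fin r → ℤ // (∀ j, DC A pos P (D j) ∧
          |D j| ≤ X) ∧ Good D ∧ Idp D} := by
  classical
  set Cl : ℤ → Prop := fun D => DC A pos P D with hCl
  let G : ℕ → ℕ := fun X => Nat.card {D : Fin r → ℤ // (∀ j, Cl (D j) ∧ |D j| ≤ X) ∧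
    Good D}
  let GI : ℕ → ℕ := fun X => Nat.card {D : Fin r → ℤ // (∀ j, Cl (D j) ∧ |D j| ≤ X) ∧
    Good D ∧ Idp D}
  have hfin : ∀ X : ℕ, {D : Fin r → ℤ | ∀ j, Cl (D j) ∧ |D j| ≤ X}.Finite := by
    intro X
    refine Set.Finite.subset (Set.Finite.pi' fun _ : Fin r =>
      Set.finite_Icc (-(X : ℤ)) (X : ℤ)) ?_
    rintro D h2 j
    exact abs_le.1 (h2 j).2
  -- comparison
  have hGI : ∀ X : ℕ, G X ≤ GI X + 2 ^ r * (2 * X + 1) ^ (r - 1) := by
    intro X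
    have hd := dep_count (A := A) (pos := pos) (P := P) hr X
    refine le_trans ?_ (Nat.add_le_add_left hd _)
    set S1 : Set (Fin r → ℤ) := {D | (∀ j, Cl (D j) ∧ |D j| ≤ X) ∧ Good D} with hS1
    set S2 : Set (Fin r → ℤ) := {D | (∀ j, Cl (D j) ∧ |D j| ≤ X) ∧ Good D ∧ Idp D}
      with hS2
    set S3 : Set (Fin r → ℤ) := {D | (∀ j, Cl (D j) ∧ |D j| ≤ X) ∧
      ∃ S : Finset (Fin r), S.Nonempty ∧ sd S (fun j => (D j).natAbs.primeFactors) = ∅} with hS3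
    have hsub : S1 ⊆ S2 ∪ S3 := by
      rintro D ⟨h1, h2⟩
      by_cases hI : Idp D
      · exact Or.inl ⟨h1, h2, hI⟩
      · exact Or.inr ⟨h1, hNI D (fun j => (h1 j).1) hI⟩
    have f2 : S2.Finite := (hfin X).subset fun D hD => hD.1
    have f3 : S3.Finite := (hfin X).subset fun D hD => hD.1
    have h1 := Set.ncard_le_ncard hsub (f2.union f3)
    have h2 := Set.ncard_union_le S2 S3
    rw [← Nat.card_coe_set_eq, ← Nat.card_coe_set_eq] at h1
    rw [← Nat.card_coe_set_eq, ← Nat.card_coe_set_eq, ← Nat.card_coe_set_eq] at h2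
    exact h1.trans h2
  have hmono : ∀ X Y : ℕ, X ≤ Y → GI X ≤ GI Y := by
    intro X Y hXY
    have hf : Finite {D : Fin r → ℤ // (∀ j, Cl (D j) ∧ |D j| ≤ Y) ∧ Good D ∧ Idp D} :=
      (hfin Y).subset fun D hD => hD.1
    refine Nat.card_le_card_of_injective (fun D => (⟨D.1, fun j => ⟨(D.2.1 j).1,
      (D.2.1 j).2.trans (by exact_mod_cast hXY)⟩, D.2.2⟩ :
      {D : Fin r → ℤ // (∀ j, Cl (D j) ∧ |D j| ≤ Y) ∧ Good D ∧ Idp D})) ?_
    intro D D' hDD
    exact Subtype.ext (congrArg (fun x => x.1) hDD)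
  refine ⟨?_, ?_⟩
  · refine ⟨2 * C, ?_⟩
    have hs := small hr hε hε1 (A := 2 * (C + 1) * 2 ^ r) (B := 2 * C) (by positivity)
      (by positivity)
    filter_upwards [hs, eventually_ge_atTop X0] with X h1 h2
    have h3 := hX0 X h2
    have h4 := hC X
    set N : ℕ := Nat.card {D : Fin r → ℤ // ∀ j, Cl (D j) ∧ |D j| ≤ X} with hN
    have h5 : (Nat.card {D : Fin r → ℤ // (∀ j, Cl (D j) ∧ |D j| ≤ X) ∧ Good D} : ℕ) ≤
        N := by
      have hf : Finite {D : Fin r → ℤ // ∀ j, Cl (D j) ∧ |D j| ≤ X} := hfin X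
      refine Nat.card_le_card_of_injective (fun D => (⟨D.1, D.2.1⟩ :
        {D : Fin r → ℤ // ∀ j, Cl (D j) ∧ |D j| ≤ X})) ?_
      intro D D' hDD
      exact Subtype.ext (congrArg (fun x => x.1) hDD)
    have h6 : N ≤ C * G (C * X) := by
      refine h4.trans (le_of_eq ?_)
      have e : ((C * X : ℕ) : ℤ) = (C : ℤ) * X := by push_cast; rfl
      show C * _ = C * Nat.card {D : Fin r → ℤ // (∀ j, Cl (D j) ∧ |D j| ≤ ((C * X : ℕ) : ℤ)) ∧
        Good D}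
      rw [e]
    have h7 : N ≤ C * (GI (C * X) + 2 ^ r * (2 * (C * X) + 1) ^ (r - 1)) :=
      h6.trans (Nat.mul_le_mul_left _ (hGI _))
    have h8 : (2 * (C * (2 ^ r * (2 * (C * X) + 1) ^ (r - 1))) : ℝ) ≤ N := by
      refine le_trans ?_ (h1.trans (h3.trans (by exact_mod_cast h5)))
      have h9 : (0 : ℝ) ≤ (2 * C * X + 1) ^ (r - 1) := by positivity
      have h10 : (0 : ℝ) ≤ 2 ^ r := by positivity
      have e : (2 * (C * (2 ^ r * (2 * (C * X) + 1) ^ (r - 1))) : ℝ) =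
          2 * C * 2 ^ r * (2 * C * X + 1) ^ (r - 1) := by
        rw [show (2 * (C * X) + 1 : ℝ) = 2 * C * X + 1 by ring]
        ring
      rw [e]
      have h11 : (2 * C * 2 ^ r : ℝ) ≤ 2 * (C + 1) * 2 ^ r := by nlinarith
      exact mul_le_mul_of_nonneg_right h11 h9
    have h9 : 2 * (C * (2 ^ r * (2 * (C * X) + 1) ^ (r - 1))) ≤ N := by exact_mod_cast h8
    have h10 : N ≤ 2 * C * GI (C * X) := by
      have h11 : C * (GI (C * X) + 2 ^ r * (2 * (C * X) + 1) ^ (r - 1)) = C * GI (C * X) +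
          C * (2 ^ r * (2 * (C * X) + 1) ^ (r - 1)) := Nat.mul_add _ _ _
      rw [h11] at h7
      have h12 : 2 * C * GI (C * X) = 2 * (C * GI (C * X)) := Nat.mul_assoc _ _ _
      rw [h12]
      omega
    refine h10.trans (Nat.mul_le_mul_left _ ?_)
    refine (hmono (C * X) (2 * C * X) ?_).trans (le_of_eq ?_)
    · exact Nat.mul_le_mul_right _ (by omega)
    · have e : ((2 * C * X : ℕ) : ℤ) = ((2 * C : ℕ) : ℤ) * X := by push_cast; rfl
      show Nat.card {D : Fin r → ℤ // (∀ j, Cl (D j) ∧ |D j| ≤ ((2 * C * X : ℕ) : ℤ)) ∧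
        Good D ∧ Idp D} = _
      rw [e]
  · have hlog : Tendsto (fun X : ℕ => Real.log X) atTop atTop :=
      Real.tendsto_log_atTop.comp tendsto_natCast_atTop_atTop
    have hs := small hr hε hε1 (A := 2 * 2 ^ r) (B := 2) (by positivity) (by positivity)
    have e1 : ∀ᶠ Y : ℕ in atTop, (2 : ℝ) ≤ (Real.log Y) ^ (ε / 2) :=
      ((tendsto_rpow_atTop (by positivity : 0 < ε / 2)).comp hlog).eventually_ge_atTop _
    filter_upwards [hs, eventually_ge_atTop X0, e1, hlog.eventually_ge_atTop 1] with X h1 h2 h3 h4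
    have h5 := hX0 X h2
    have h6 : (G X : ℝ) ≤ GI X + 2 ^ r * (2 * X + 1) ^ (r - 1) := by exact_mod_cast hGI X
    have hL : 0 < Real.log X := by linarith
    set u : ℝ := Real.log X ^ (1 - ε) with hu
    set t : ℝ := Real.log X ^ (ε / 2) with ht
    have hu0 : 0 < u := Real.rpow_pos_of_pos hL _
    have ht0 : 0 < t := Real.rpow_pos_of_pos hL _
    have hut : Real.log X ^ (1 - ε / 2) = u * t := by
      rw [hu, ht, ← Real.rpow_add hL]
      congr 1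
      ring
    have h7 : (((X : ℝ) / u) ^ r) ≤ G X := h5
    have h8 : ((X : ℝ) / (u * t)) ^ r ≤ ((X : ℝ) / u) ^ r / 2 := by
      rw [← div_div, div_pow _ t]
      refine div_le_div_of_nonneg_left (by positivity) two_pos ?_
      calc (2 : ℝ) ≤ t := h3
        _ = t ^ 1 := (pow_one t).symm
        _ ≤ t ^ r := pow_le_pow_right₀ (by linarith) hr
    rw [hut]
    show ((X : ℝ) / (u * t)) ^ r ≤ (GI X : ℝ)
    have h9 : (2 : ℝ) * (2 ^ r * (2 * X + 1) ^ (r - 1)) ≤ ((X : ℝ) / u) ^ r := by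
      refine le_trans (le_of_eq ?_) h1
      ring
    linarith


end Pool.Agent.U81.AR
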