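import Pool.Agent.U81.AR.Unr
import Pool.Agent.U81.MP.Dep

/-!
The layers over an abelian field.
-/

set_option autoImplicit false

open UpperHalfPlane MatrixGroups CongruenceSubgroup

namespace Pool.Agent.U81.AR

open NumberField IsDedekindDomain Pointwise WithZero
open Pool.Agent.K4H15.BW (tower roots root_mem efD NVD not_sq_exp)
open Pool.Agent.K4H55.BD (low mem_low pv crv Cub val_q int_mem disc_mem sq_loc)
open Pool.Agent.K4H55.CX (facF SelG fin_up noroot_up)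
open Pool.Agent.K4H55.AB (GT DC disc_ne disc_symm disc_pf dd_pf pf_disc disc_mod disc_natAbs cD)
open Pool.Agent.U81.BX (fct)
open Pool.Agent.U81.MQ
open Pool.Agent.U81.MP (sd sd_empty sd_symm sd_gt DS DS_dc DS_single DSet adj_le prod_sq prod_ds sq_res)
open Pool.Agent.Y18.BSD (dd disc dd_ne_zero recip IsFormOf co)
open Pool.Agent.W263.BSD (GoodPrime)
open Pool.Agent.H921R2.TatePole (below)
open scoped symmDiff

variable {K : Type} [Field K] [NumberField K] {a b : ℤ} {n : ℕ} {A : Set ℕ} {pos : Prop}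
  {P : Finset ℕ} {r : ℕ} {D : Fin r → ℤ}

/-- admissible primes -/
structure AdmK (a b : ℤ) (n : ℕ) (K : Type) [Field K] [NumberField K] (A : Set ℕ) : Prop where
  pr : ∀ q ∈ A, q.Prime ∧ q ≠ 2
  good : ∀ q ∈ A, GoodPrime a b q
  nd : ∀ q ∈ A, ¬ q ∣ n
  root : ∀ q ∈ A, ∀ v : HeightOneSpectrum (𝓞 K), (q : 𝓞 K) ∈ v.asIdeal → ∀ X : 𝓞 K,
    X ^ 3 + (a : 𝓞 K) * X + (b : 𝓞 K) ∉ v.asIdeal

/-- the valuations of a discriminant of the class -/
lemma dc_val (hA : AdmK a b n K A) (hn : n ≠ 0) (hK : Nonempty (K →ₐ[ℚ] CyclotomicField n ℚ))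
    {D : ℤ} (hD : DC A pos P D) {v : HeightOneSpectrum (𝓞 K)}
    (hDv : ((D : ℤ) : 𝓞 K) ∈ v.asIdeal) :
    v.valuation K (((D : ℤ) : 𝓞 K) : K) = exp (-1 : ℤ) ∧
      (∀ x : 𝓞 K, x ^ 3 + (a : 𝓞 K) * x + (b : 𝓞 K) ∉ v.asIdeal) := by
  have hdD := disc_pf hD.sqf hD.one
  have h2 := hDv
  rw [← hdD] at h2
  obtain ⟨q, hq, hqv⟩ := disc_mem.1 h2
  have hqA := hD.gt.adm q hq
  have hqp := (hA.pr q hqA).1
  refine ⟨?_, hA.root q hqA v hqv⟩
  have hqD : (q : ℤ) ∣ D := Int.natCast_dvd.2 (Nat.dvd_of_mem_primeFactors hq)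
  obtain ⟨m, rfl⟩ := hqD
  have hqm : ¬ (q : ℤ) ∣ m := by
    rintro ⟨k, rfl⟩
    have h3 := hD.sqf (q : ℤ) ⟨k, by ring⟩
    have h4 := Int.isUnit_iff.1 h3
    have h5 := hqp.two_le
    omega
  have hmv : (m : 𝓞 K) ∉ v.asIdeal := fun h3 => hqm ((int_mem hqp hqv).1 h3)
  have e : (((q : ℤ) * m : ℤ) : 𝓞 K) = (q : 𝓞 K) * (m : 𝓞 K) := by push_cast; ring
  have h3 : v.valuation K (algebraMap (𝓞 K) K (m : 𝓞 K)) = 1 := by
    rw [v.valuation_of_algebraMap]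
    exact HeightOneSpectrum.intValuation_eq_one_iff.2 hmv
  show v.valuation K (algebraMap (𝓞 K) K (((q : ℤ) * m : ℤ) : 𝓞 K)) = _
  rw [e, map_mul, map_mul, h3, mul_one]
  exact val_q hqv (unr_abelian hn hK hqp (hA.nd q hqA) v hqv)

lemma twr_tuple (hA : AdmK a b n K A) (hn : n ≠ 0)
    (hK : Nonempty (K →ₐ[ℚ] CyclotomicField n ℚ)) (hD : ∀ j, DC A pos P (D j)) :
    Twr (DSet K D) := by
  classical
  refine ⟨?_, ⟨∅, ?_⟩, ?_, ?_⟩
  · rintro _ ⟨S, rfl⟩ h0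
    have h1 : DS D S = 0 := by exact_mod_cast h0
    have h2 := (DS_dc hA.pr hD S).one
    omega
  · unfold DS
    rw [sd_empty]
    simp [disc]
  · rintro _ ⟨S, rfl⟩ _ ⟨S', rfl⟩
    refine ⟨_, ⟨S ∆ S', rfl⟩, ((disc (sd S (fun j => (D j).natAbs.primeFactors) ∩
      sd S' fun j => (D j).natAbs.primeFactors) : ℤ) : 𝓞 K), ?_, ?_⟩
    · intro h0
      have h1 : disc (sd S (fun j => (D j).natAbs.primeFactors) ∩
        sd S' fun j => (D j).natAbs.primeFactors) = 0 := by exact_mod_cast h0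
      exact disc_ne (fun q hq => (hA.pr q ((sd_gt hA.pr (fun j => (hD j).gt) S).adm q
        (Finset.mem_inter.1 hq).1)).1) h1
    · unfold DS
      rw [sd_symm]
      exact_mod_cast disc_symm _ _
  · rintro _ ⟨S, rfl⟩ v hv
    exact (dc_val hA hn hK (DS_dc hA.pr hD S) hv).1

/-- if the product is a square then its squarefree part is one -/
lemma sq_sd (hA : AdmK a b n K A) (hn : n ≠ 0)
    (hK : Nonempty (K →ₐ[ℚ] CyclotomicField n ℚ)) (hD : ∀ j, DC A pos P (D j))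
    {S : Finset (Fin r)} (hsq : IsSquare (∏ j ∈ S, ((D j : ℤ) : K))) :
    sd S (fun j => (D j).natAbs.primeFactors) = ∅ := by
  classical
  by_contra hne
  obtain ⟨q, hq⟩ := Finset.nonempty_iff_ne_empty.2 hne
  obtain ⟨g, hg, h1⟩ := prod_ds hD S
  have hq1 := (hA.pr q ((sd_gt hA.pr (fun j => (hD j).gt) S).adm q hq)).1
  obtain ⟨v, hv⟩ := exists_place K hq1
  have hmem : ((DS D S : ℤ) : 𝓞 K) ∈ v.asIdeal := disc_mem.2 ⟨q, hq, hv⟩
  have hval := (dc_val hA hn hK (DS_dc hA.pr hD S) hmem).1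
  refine not_sq_exp hval ?_
  obtain ⟨z, hz⟩ := hsq
  have h2 : ((DS D S : ℤ) : K) * (g : K) ^ 2 = z * z := by
    rw [← hz]
    exact_mod_cast congrArg (Int.cast (R := K)) h1
  have hgK : (g : K) ≠ 0 := by exact_mod_cast hg
  refine ⟨z / g, ?_⟩
  have e : ((((DS D S : ℤ) : 𝓞 K)) : K) = ((DS D S : ℤ) : K) := by simp
  rw [e]
  field_simp
  linear_combination h2

section bad

variable (hA : AdmK a b n K A) (hP : ∀ p : ℕ, p.Prime → (p : ℤ) ∣ 2 * (4 * a ^ 3 + 27 * b ^ 2) → p ∈ P)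
  (hD : ∀ j, DC A pos P (D j))
include hA hP hD

lemma bad_sq {v : HeightOneSpectrum (𝓞 K)}
    (hv : 2 * (4 * (a : 𝓞 K) ^ 3 + 27 * (b : 𝓞 K) ^ 2) ∈ v.asIdeal)
    {x : 𝓞 K} (hxD : x ∈ DSet K D) : IsSquare (algebraMap K (v.adicCompletion K) x) := by
  obtain ⟨S, rfl⟩ := hxD
  have hS := DS_dc hA.pr hD S
  have h2 := hS.loc _ (hP _ (below v).2 ((bad_iff v).1 hv))
  rw [← dd_pf hS.sqf] at h2
  have h3 := sq_loc (fun q hq => hA.pr q (hS.gt.adm q hq)) (below v).2 h2 v (below_mem v)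
  rw [disc_pf hS.sqf hS.one] at h3
  simpa using h3

lemma bad_res {v : HeightOneSpectrum (𝓞 K)}
    (hv : 2 * (4 * (a : 𝓞 K) ^ 3 + 27 * (b : 𝓞 K) ^ 2) ∈ v.asIdeal)
    {x : 𝓞 K} (hxD : x ∈ DSet K D) : x ∉ v.asIdeal ∧ ∃ y : 𝓞 K, x - y ^ 2 ∈ v.asIdeal := by
  obtain ⟨S, rfl⟩ := hxD
  have hS := DS_dc hA.pr hD S
  have h2 := hS.loc _ (hP _ (below v).2 ((bad_iff v).1 hv))
  rw [← dd_pf hS.sqf] at h2
  obtain ⟨-, h3, y, h4⟩ := sq_res (fun q hq => hA.pr q (hS.gt.adm q hq)) (below v).2 h2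
  rw [disc_pf hS.sqf hS.one] at h3 h4
  refine ⟨fun h5 => h3 ((icast_mem v).1 h5), (y : 𝓞 K), ?_⟩
  have h5 := (icast_mem v).2 h4
  push_cast at h5
  exact h5

lemma bad_eight {x : 𝓞 K} (hxD : x ∈ DSet K D) : (8 : 𝓞 K) ∣ x - 1 := by
  obtain ⟨S, rfl⟩ := hxD
  have hS := DS_dc hA.pr hD S
  have h2 := hS.loc 2 (hP 2 Nat.prime_two (Dvd.intro _ rfl))
  rw [← dd_pf hS.sqf] at h2
  have h3 := (sq_res (fun q hq => hA.pr q (hS.gt.adm q hq)) Nat.prime_two h2).1 rfl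
  rw [disc_pf hS.sqf hS.one] at h3
  obtain ⟨m, hm⟩ : (8 : ℤ) ∣ DS D S - 1 := by omega
  refine ⟨(m : 𝓞 K), ?_⟩
  exact_mod_cast congrArg (Int.cast (R := 𝓞 K)) hm

end bad

/-- **The Euler product** -/
theorem prod32 {K : Type} [Field K] [NumberField K] {F : Type} [Field F] [NumberField F] [Algebra K F]
    [IsGalois K F]
    {D : ((F ≃ₐ[K] F) →* ℂˣ) → 𝓞 K} {x : ((F ≃ₐ[K] F) →* ℂˣ) → 𝓞 F}
    (h : Kum D x) {a b n : 𝓞 K} {c : Ideal (𝓞 K) → ℂ} (hΔ : 4 * a ^ 3 + 27 * b ^ 2 ≠ 0)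
    (hE : ∀ v : HeightOneSpectrum (𝓞 K), 2 * (4 * a ^ 3 + 27 * b ^ 2) ∉ v.asIdeal →
      n ∉ v.asIdeal ∧ c v.asIdeal = (Ideal.absNorm v.asIdeal : ℂ) - pv a b v)
    (h8 : ∀ χ, (8 : 𝓞 K) ∣ D χ - 1)
    (hM : ∀ v : HeightOneSpectrum (𝓞 K), 2 * (4 * a ^ 3 + 27 * b ^ 2) ∈ v.asIdeal →
      ∀ χ, D χ ∉ v.asIdeal ∧ ∃ y : 𝓞 K, D χ - y ^ 2 ∈ v.asIdeal)
    (hnv : ∀ χ, ∃ G : ℂ → ℂ, Differentiable ℂ G ∧
      (∀ s : ℂ, 3 / 2 < s.re → HasProd (efD a b n c (D χ) s) (G s)) ∧ G 1 ≠ 0) :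
    ∃ G : ℂ → ℂ, Differentiable ℂ G ∧
      (∀ s : ℂ, 3 / 2 < s.re → HasProd (fct (F := F) a b n c s) (G s)) ∧ G 1 ≠ 0 := by
  classical
  have hfc : Finite ((F ≃ₐ[K] F) →* ℂˣ) := fin_chr
  have : Fintype ((F ≃ₐ[K] F) →* ℂˣ) := Fintype.ofFinite _
  choose G hG1 hG2 hG3 using hnv
  refine ⟨fun s => ∏ χ, G χ s, ?_, fun s hs => ?_, ?_⟩
  · exact Differentiable.fun_finsetProd fun χ _ => hG1 χ
  · refine U81.BX.hasProd_fct hΔ hE (fun u => ?_) (fun v => ?_) hs ?_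
    · obtain ⟨e, f, g, he, hf, hg, h4, h5, h6, h7, h9, h8⟩ := nums (K := K) u
      exact ⟨f, h9 u rfl⟩
    · obtain ⟨u, rfl⟩ := exists_above (F := F) v
      obtain ⟨e, f, g, he, hf, hg, h4, h5, h6, h7, h9, h8⟩ := nums (K := K) u
      have h10 : Nat.card {w : HeightOneSpectrum (𝓞 F) //
          w.asIdeal.comap (algebraMap (𝓞 K) (𝓞 F)) = (low (K := K) u).asIdeal} = g := by
        rw [h4]
        refine Nat.card_congr (Equiv.subtypeEquivRight fun w => ?_)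
        constructor
        · intro h10
          exact HeightOneSpectrum.ext h10
        · intro h10
          rw [← h10]
          rfl
      exact Nat.finite_of_card_ne_zero (by omega)
    · have h1 : HasProd (fun v => ∏ χ, efD a b n c (D χ) s v) (∏ χ, G χ s) :=
        hasProd_prod fun χ _ => hG2 χ s hs
      refine (congrArg (fun g => HasProd g (∏ χ, G χ s)) (funext fun v => ?_)).mp h1
      exact (U81.MP.fiber_sq h hE h8 hM v s).symm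
  · exact Finset.prod_ne_zero_iff.2 fun χ _ => hG3 χ

/-- the nonvanishing over the base field -/
def NVT (K : Type) [Field K] [NumberField K] (a b : ℤ) {N : ℕ}
    (f : CuspForm (Gamma0 N : Subgroup (GL (Fin 2) ℝ)) 2) (T : Finset ℕ) : Prop :=
  ∃ G : ℂ → ℂ, Differentiable ℂ G ∧ (∀ s : ℂ, 3 / 2 < s.re → HasProd (W165.CE.fac (K := K)
    (a * disc T ^ 2) (b * disc T ^ 3) (N * dd T) (cD f T) s) (G s)) ∧ G 1 ≠ 0

/-- the nonvanishing over the extension -/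
def NVF (F : Type) [Field F] [NumberField F] (a b : ℤ) {N : ℕ}
    (f : CuspForm (Gamma0 N : Subgroup (GL (Fin 2) ℝ)) 2) : Prop :=
  ∃ G : ℂ → ℂ, Differentiable ℂ G ∧ (∀ s : ℂ, 3 / 2 < s.re → HasProd (W165.CE.fac (K := F)
    a b N (co f) s) (G s)) ∧ G 1 ≠ 0

variable {L : Type} [Field L] [NumberField L] [Algebra K L] {θ : L} {N : ℕ}
  {f : CuspForm (Gamma0 N : Subgroup (GL (Fin 2) ℝ)) 2}

/-- **The layers.** -/
theorem layer (hA : AdmK a b n K A) (hn : n ≠ 0) (hKn : Nonempty (K →ₐ[ℚ] CyclotomicField n ℚ))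
    (hP : ∀ p : ℕ, p.Prime → (p : ℤ) ∣ 2 * (4 * a ^ 3 + 27 * b ^ 2) → p ∈ P)
    (hΔ : 4 * a ^ 3 + 27 * b ^ 2 ≠ 0) (hf : IsFormOf a b N f) (hK : Cub K θ)
    (hθ : θ ^ 3 + algebraMap K L ((a : 𝓞 K) : K) * θ + algebraMap K L ((b : 𝓞 K) : K) = 0)
    (hS : SelG (a : 𝓞 K) (b : 𝓞 K) θ)
    (hD : ∀ j, DC A pos P (D j))
    (F : IntermediateField K (AlgebraicClosure K)) [NumberField F]
    (hF : F ≤ IntermediateField.adjoin K {x : AlgebraicClosure K |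
      ∃ j, x ^ 2 = ((D j : ℤ) : AlgebraicClosure K)}) :
    IsGalois K F ∧ (∃ k : ℕ, Module.finrank K F = 2 ^ k) ∧
      ((Finite (crv (algebraMap K F ((a : 𝓞 K) : K)) (algebraMap K F ((b : 𝓞 K) : K))).toAffine.Point ∧
        Odd (Nat.card (crv (algebraMap K F ((a : 𝓞 K) : K))
          (algebraMap K F ((b : 𝓞 K) : K))).toAffine.Point)) ∧
      (∀ (k : ℕ) (s : Pool.Agent.TH841.NF.D.Sha (crv (algebraMap K F ((a : 𝓞 K) : K))
        (algebraMap K F ((b : 𝓞 K) : K)))), (2 ^ k : ℕ) • s = 0 → s = 0) ∧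
      ∀ x : Pool.Agent.Y667.BKP.H1f 2 (crv (algebraMap K F ((a : 𝓞 K) : K))
        (algebraMap K F ((b : 𝓞 K) : K))), x = 0) ∧
      ((∀ S, NVT K a b f (sd S fun j => (D j).natAbs.primeFactors)) → NVF F a b f) := by
  classical
  have hΔK : 4 * (a : 𝓞 K) ^ 3 + 27 * (b : 𝓞 K) ^ 2 ≠ 0 := by exact_mod_cast hΔ
  have hF' : F ≤ tower (DSet K D) := hF.trans (adj_le hD)
  have hT := twr_tuple hA hn hKn hD
  have hfd : FiniteDimensional K F := Module.Finite.of_restrictScalars_finite ℚ K F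
  have hgal := gal_sub F hF'
  obtain ⟨k, hk⟩ := rank_two F hF'
  obtain ⟨DD, x, hkum, hDD⟩ := exists_kum hT F hF'
  have hemb : ∀ v : HeightOneSpectrum (𝓞 K),
      2 * (4 * (a : 𝓞 K) ^ 3 + 27 * (b : 𝓞 K) ^ 2) ∈ v.asIdeal →
      Nonempty (F →ₐ[K] v.adicCompletion K) := fun v hv =>
    emb_sub v (fun y hy => bad_sq hA hP hD hv hy) F hF'
  have h2u : ∀ u : HeightOneSpectrum (𝓞 F),
      2 * (4 * (a : 𝓞 K) ^ 3 + 27 * (b : 𝓞 K) ^ 2) ∉ (low (K := K) u).asIdeal →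
      (2 : 𝓞 F) ∉ u.asIdeal := by
    intro u hu h2
    apply hu
    refine (low (K := K) u).asIdeal.mul_mem_right _ ?_
    rw [mem_low, map_ofNat]
    exact h2
  refine ⟨hgal, ⟨k, hk⟩, ?_, fun hnv => ?_⟩
  · refine fin_up (F := F) hΔK hK hθ hS hk hemb fun u hu => ?_
    by_cases hex : ∃ χ, DD χ ∈ (low (K := K) u).asIdeal
    · obtain ⟨χ, hχ⟩ := hex
      obtain ⟨S, hS2⟩ := hDD χ
      rw [hS2] at hχ
      exact Or.inl (dc_val hA hn hKn (DS_dc hA.pr hD S) hχ).2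
    · push Not at hex
      exact Or.inr fun y => hkum.unram u (h2u u hu) hex y
  · obtain ⟨G, hG1, hG2, hG3⟩ := prod32 (c := cK N (co f)) (n := ((N : ℕ) : 𝓞 K)) hkum hΔK
      (fun v hv => cK_good hf v hv)
      (fun χ => bad_eight hA hP hD (hDD χ))
      (fun v hv χ => bad_res hA hP hD hv (hDD χ)) fun χ => by
        obtain ⟨S, hS2⟩ := hDD χ
        rw [hS2]
        obtain ⟨G, hG1, hG2, hG3⟩ := hnv S
        refine ⟨G, hG1, fun s hs => ?_, hG3⟩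
        have hS3 := sd_gt hA.pr (fun j => (hD j).gt) S
        refine (congrArg (fun g => HasProd g (G s)) (funext fun v => ?_)).mp
          (hG2 s hs)
        exact (ef_fac (fun q hq => hA.good q (hS3.adm q hq)) v s fun hbad =>
          hS3.loc _ (hP _ (below v).2 hbad)).symm
    refine ⟨G, hG1, fun s hs => ?_, hG3⟩
    refine (congrArg (fun g => HasProd g (G s)) (funext fun u => ?_)).mp (hG2 s hs)
    exact fct_fac u s fun hu => norm_split hkum (fun χ => bad_eight hA hP hD (hDD χ)) u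
      fun χ => bad_res hA hP hD hu (hDD χ)

end Pool.Agent.U81.AR
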