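import Pool.Agent.U81.AR.Ind

/-!
The positive share of the tuples, for several curves over abelian fields.
-/

set_option autoImplicit false

open Complex Filter Topology UpperHalfPlane MatrixGroups CongruenceSubgroup
open NumberField IsDedekindDomain H300.HW
open scoped symmDiff

namespace Pool.Agent.U81.AR

open Finset Pool.Agent.Y18.BSD Pool.Agent.Y18.LP Pool.Agent.K4H55.AB
open Pool.Agent.Y18.NF hiding sd sd_empty sd_insert
open Pool.Agent.W263.BSD (pointCount GoodPrime IsLSeries)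
open Pool.Agent.H921R2.TatePole
open W165.CE (fac fac_eq pw ap0)
open Pool.Agent.U81.MP (sd sd_gt DS dlevel_tup quant_tup Ind)

section
variable {ι : Type} [Finite ι] (a b : ι → ℤ) (N n : ι → ℕ)
  (K : ι → Type) [∀ i, Field (K i)] [∀ i, NumberField (K i)]
  (f : (i : ι) → CuspForm (Gamma0 (N i) : Subgroup (GL (Fin 2) ℝ)) 2)

theorem final_tup (hN : ∀ i, N i ≠ 0) (hn : ∀ i, n i ≠ 0)
    (hΔ : ∀ i, 4 * a i ^ 3 + 27 * b i ^ 2 ≠ 0)
    (hf : ∀ i, IsFormOf (a i) (b i) (N i) (f i)) (hnN : ∀ i, (n i).Coprime (N i))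
    (hK : ∀ i, Nonempty (K i →ₐ[ℚ] CyclotomicField (n i) ℚ))
    (hbase : ∀ i, NVT (K i) (a i) (b i) (f i) ∅) (r : ℕ) :
    ∃ V : ℕ, ∀ A : Set ℕ, A ⊆ AK a b n K → ∀ (pos : Prop) (P : Finset ℕ),
      ∃ KK : Finset (Fin r → Finset ℕ), KK.card ≤ V ∧
      (∀ k ∈ KK, ∀ j, GT A pos P (k j)) ∧
      ∀ T : Fin r → Finset ℕ, (∀ j, GT A pos P (T j)) → ∃ k ∈ KK,
        ∀ (S : Finset (Fin r)) (i : ι), NVT (K i) (a i) (b i) (f i) (sd S fun j => T j ∆ k j) := by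
  classical
  have i1 : ∀ i, NeZero (N i) := fun i => ⟨hN i⟩
  have i2 : ∀ i, NeZero (n i) := fun i => ⟨hn i⟩
  have i3 : ∀ i, NeZero ((n i : ℕ) : ℚ) := fun i => ⟨Nat.cast_ne_zero.2 (hn i)⟩
  have i4 : ∀ i, IsCyclotomicExtension {n i} ℚ (CyclotomicField (n i) ℚ) :=
    fun i => CyclotomicField.isCyclotomicExtension (n i) ℚ
  let φ : (i : ι) → K i →ₐ[ℚ] CyclotomicField (n i) ℚ := fun i => (hK i).some
  let F : (i : ι) → IntermediateField ℚ (CyclotomicField (n i) ℚ) := fun i => (φ i).fieldRange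
  let e : (i : ι) → 𝓞 (K i) ≃+* 𝓞 (F i) := fun i =>
    RingOfIntegers.mapRingEquiv (AlgEquiv.ofInjectiveField (φ i)).toRingEquiv
  have hAsub : AK a b n K ⊆ AA a b n (fun i => CyclotomicField (n i) ℚ) F := by
    rintro q ⟨h1, h2, h3⟩
    refine ⟨h1, h2, fun i => ⟨(h3 i).1, (h3 i).2.1, fun v hv => ?_⟩⟩
    have h4 := (h3 i).2.2 ((plE (e i)).symm v) (by
      have h5 : v = plE (e i) ((plE (e i)).symm v) := ((plE (e i)).apply_symm_apply v).symm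
      rw [h5, mem_plE, map_natCast] at hv
      exact hv)
    rw [← ptv_plE (e i), (plE (e i)).apply_symm_apply] at h4
    exact h4
  have hbase' : ∀ i, ∃ G : ℂ → ℂ, Differentiable ℂ G ∧ (∀ s : ℂ, 3 / 2 < s.re →
      HasProd (fac (K := F i) (a i) (b i) (N i) (co (f i)) s) (G s)) ∧ G 1 ≠ 0 := by
    intro i
    obtain ⟨G, h1, h2, h3⟩ := hbase i
    refine ⟨G, h1, fun s hs => hasProd_plE (e i) _ _ _ _ _ _ ?_, h3⟩
    have h4 := h2 s hs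
    have e1 : disc ∅ = 1 := by simp [disc]
    have e2 : dd ∅ = 1 := by simp [dd]
    rw [e1, e2, cD_empty, one_pow, one_pow, mul_one, mul_one, mul_one] at h4
    exact h4
  obtain ⟨V, hV⟩ := main_tup a b N n (fun i => CyclotomicField (n i) ℚ) F f hΔ hf hnN hbase' r
  refine ⟨V, fun A hA pos P => ?_⟩
  obtain ⟨KK, h1, h2, h3⟩ := hV A (hA.trans hAsub) pos P
  refine ⟨KK, h1, h2, fun T hT => ?_⟩
  obtain ⟨k, hk, h4⟩ := h3 T hT
  refine ⟨k, hk, fun S i => ?_⟩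
  obtain ⟨G, h5, h6, h7⟩ := h4 S i
  exact ⟨G, h5, fun s hs => hasProd_plE (e i).symm _ _ _ _ _ _ (h6 s hs), h7⟩

/-- the `L`-functions of all the twists of the tuple do not vanish -/
def GoodT {r : ℕ} (D : Fin r → ℤ) : Prop :=
  ∀ (S : Finset (Fin r)) (i : ι), NVT (K i) (a i) (b i) (f i)
    (sd S fun j => (D j).natAbs.primeFactors)

/-- independence over all the fields -/
def IndK {r : ℕ} (D : Fin r → ℤ) : Prop := ∀ i, Ind (K i) D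

theorem share (hN : ∀ i, N i ≠ 0) (hn : ∀ i, n i ≠ 0)
    (hΔ : ∀ i, 4 * a i ^ 3 + 27 * b i ^ 2 ≠ 0)
    (hf : ∀ i, IsFormOf (a i) (b i) (N i) (f i)) (hnN : ∀ i, (n i).Coprime (N i))
    (hK : ∀ i, Nonempty (K i →ₐ[ℚ] CyclotomicField (n i) ℚ))
    (hbase : ∀ i, NVT (K i) (a i) (b i) (f i) ∅) (r : ℕ) :
    ∃ V : ℕ, ∀ (pos : Prop) (P : Finset ℕ),
      ∃ KD : Finset (Fin r → ℤ), KD.card ≤ V ∧
      (∀ k ∈ KD, ∀ j, DC (AN a b n K) pos P (k j)) ∧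
      (∀ D : Fin r → ℤ, (∀ j, DC (AN a b n K) pos P (D j)) →
        ∃ k ∈ KD, ∃ g D' : Fin r → ℤ, (∀ j, g j ≠ 0 ∧ D' j * g j ^ 2 = D j * k j ∧
          DC (AN a b n K) pos P (D' j)) ∧ GoodT a b N K f D') ∧
      (∃ C : ℕ, ∀ X : ℕ,
        Nat.card {D : Fin r → ℤ // ∀ j, DC (AN a b n K) pos P (D j) ∧ |D j| ≤ X} ≤
        C * Nat.card {D : Fin r → ℤ // (∀ j, DC (AN a b n K) pos P (D j) ∧
          |D j| ≤ C * X) ∧ GoodT a b N K f D}) := by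
  classical
  have hA : ∀ q ∈ AN a b n K, q.Prime ∧ q ≠ 2 := fun q hq => ⟨hq.1, hq.2.1⟩
  obtain ⟨V, hV⟩ := final_tup a b N n K f hN hn hΔ hf hnN hK hbase r
  refine ⟨V, fun pos P => ?_⟩
  obtain ⟨KK, h1, h2, h3⟩ := hV (AN a b n K) (an_sub a b n K) pos P
  obtain ⟨KD, h4, h5, h6, C, h7⟩ := dlevel_tup hA (GoodT a b N K f) KK h2 (fun T hT => by
    obtain ⟨k, hk, h4⟩ := h3 T hT
    refine ⟨k, hk, fun S i => ?_⟩
    have hTk : ∀ j, GT (AN a b n K) pos P (T j ∆ k j) := fun j => (hT j).symm hA (h2 k hk j)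
    have e0 : (sd S fun j => (disc (T j ∆ k j)).natAbs.primeFactors) = sd S fun j => T j ∆ k j := by
      congr 1
      funext j
      exact pf_disc fun q hq => (hA q ((hTk j).adm q hq)).1
    rw [e0]
    exact h4 S i)
  exact ⟨KD, h4.trans h1, h5, h6, C, h7⟩

theorem share_ind (hN : ∀ i, N i ≠ 0) (hn : ∀ i, n i ≠ 0)
    (hΔ : ∀ i, 4 * a i ^ 3 + 27 * b i ^ 2 ≠ 0)
    (hf : ∀ i, IsFormOf (a i) (b i) (N i) (f i)) (hnN : ∀ i, (n i).Coprime (N i))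
    (hK : ∀ i, Nonempty (K i →ₐ[ℚ] CyclotomicField (n i) ℚ))
    (hbase : ∀ i, NVT (K i) (a i) (b i) (f i) ∅) (hm : Mov a b K) :
    ∃ ε : ℝ, 0 < ε ∧ ε < 1 ∧ ∀ r : ℕ, 1 ≤ r → ∀ (pos : Prop) (P : Finset ℕ),
      (∀ p ∈ P, p.Prime) →
      (∃ C : ℕ, ∀ᶠ X : ℕ in atTop,
        Nat.card {D : Fin r → ℤ // ∀ j, DC (AN a b n K) pos P (D j) ∧ |D j| ≤ X} ≤
        C * Nat.card {D : Fin r → ℤ // (∀ j, DC (AN a b n K) pos P (D j) ∧
          |D j| ≤ C * X) ∧ GoodT a b N K f D ∧ IndK K D}) ∧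
      ∀ᶠ X : ℕ in atTop, ((X : ℝ) / Real.log X ^ (1 - ε)) ^ r ≤
        Nat.card {D : Fin r → ℤ // (∀ j, DC (AN a b n K) pos P (D j) ∧
          |D j| ≤ X) ∧ GoodT a b N K f D ∧ IndK K D} := by
  classical
  have hA : ∀ q ∈ AN a b n K, q.Prime ∧ q ≠ 2 := fun q hq => ⟨hq.1, hq.2.1⟩
  obtain ⟨d, hd, hdens⟩ := dens_of_mov a b n K hn hΔ hm
  obtain ⟨ε, hε, hε1, hq⟩ := quant_tup hA hd hdens
  refine ⟨ε / 2, by positivity, by linarith, fun r hr pos P hP => ?_⟩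
  obtain ⟨V, hV⟩ := share a b N n K f hN hn hΔ hf hnN hK hbase r
  obtain ⟨KD, -, -, -, C, hC⟩ := hV pos P
  obtain ⟨X0, hX0⟩ := hq pos P hP r (GoodT a b N K f) C hC
  refine ind_abs hr hε hε1 (GoodT a b N K f) (IndK K) (fun D hD hI => ?_) hC hX0
  unfold IndK Ind at hI
  push Not at hI
  obtain ⟨i, S, hS, hsq⟩ := hI
  exact ⟨S, hS, sq_sd (an_adm a b n K i) (hn i) (hK i) hD hsq⟩

end

end Pool.Agent.U81.AR
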