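import Pool.Agent.K4H55.AB.Main
import Pool.Agent.Y18.LP.TupA
import Pool.Agent.U81.MP.Plt

/-!
Corrections for tuples, for sums with fixed characters.
-/

set_option autoImplicit false

open Complex Filter Topology UpperHalfPlane MatrixGroups CongruenceSubgroup
open NumberField IsDedekindDomain H300.HW
open scoped symmDiff

namespace Pool.Agent.U81.AR

open Finset Pool.Agent.Y18.BSD Pool.Agent.Y18.LP Pool.Agent.K4H55.AB
open Pool.Agent.Y18.NF hiding sd sd_empty sd_insert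
open Pool.Agent.W263.BSD (pointCount GoodPrime IsLSeries)
open Pool.Agent.H921R2.TatePole
open Pool.Agent.Y702.L (pv local_quad mem_v_of_below)
open W165.CE (fac fac_eq pw multipliable_fac ap0 trace_good pw_luc av)
open Pool.Agent.U81.MP (sd sd_empty sd_insert sd_single sd_symm)

section main

variable {ι : Type} [Fintype ι] {N : ι → ℕ} {f : ι → ℚ → ℂ} {a : ι → ℕ → ℂ} {m : ι → ℕ}
  {h : (i : ι) → (ZMod (m i))ˣ →* ℂˣ}

/-- **corrections for tuples** -/
theorem corrH_tup (hms : ∀ i, MS (N i) (f i) (a i)) (hm : ∀ i, m i ≠ 0)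
    (h0 : ∀ i, bth (f i) (h i) 1 ≠ 0) {l : ℕ} (hl : l.Prime)
    (n E0 : ℕ) (hE0 : 0 < E0) (hE : ∀ i u, h i u ^ E0 = 1)
    (lam : Ideal (integralClosure ℤ ℂ)) (hlam : lam.IsPrime)
    (hmem : (l : integralClosure ℤ ℂ) ∈ lam) (r : ℕ) :
    ∃ V : ℕ, ∀ H : Subgroup Fam, Ok H (l ^ n) (AdH N a m h lam) →
      ∃ K : Finset (Fin r → Fam), K.card ≤ 2 ^ V ∧ (∀ k ∈ K, ∀ j, k j ∈ H) ∧
        ∀ c : Fin r → Fam, (∀ j, c j ∈ H) → ∃ k ∈ K, ∀ J : Fin r → ℕ, ∀ i,
          bth (f i) (h i) (∏ j, (c j * k j) ^ J j) ≠ 0 := by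
  classical
  obtain ⟨R, hR0, P, al, zh, zi, hP, hR, hP1, hA⟩ := setupH (h := h) hms
    (fun i => exists_ne (h0 i)) hl n E0 hE0 hE lam hlam hmem
  have hRe : ∀ z : ℂ, z ^ (l ^ n) = 1 → z ∈ R := fun z hz => hR z (by rw [pow_mul, hz, one_pow])
  have hEE : ∀ i u, h i u ^ (l ^ n * E0) = 1 := fun i u => by
    rw [mul_comm, pow_mul, hE, one_pow]
  have hone : (1 : Fam) ^ (l ^ n * E0) = 1 := one_pow (M := Fam) _
  have hmem1 : ∀ i, bth (f i) (h i) 1 ∈ Submodule.span R (Set.range (f i)) := by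
    intro i
    by_cases h1 : m i * dd (sp 1) = 0
    · exfalso
      apply h0 i
      unfold bth
      rw [dif_neg (fun h2 => h2 h1)]
    · have : NeZero (m i * dd (sp 1)) := ⟨h1⟩
      rw [bth_eq (f i) (h i) 1 _ rfl]
      exact psh_mem hR (f i) (hEE i) hone _ _
  have hx : ∏ x : ι × (Fin r → Fin (l ^ n)), bth (f x.1) (h x.1) 1 ∈
      ∏ x : ι × (Fin r → Fin (l ^ n)), Submodule.span R (Set.range (f x.1)) :=
    prod_mem' univ _ _ fun x _ => hmem1 x.1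
  obtain ⟨V, hV⟩ := krull hP.ne_top (fg_prod univ _ fun x _ => span_fg (hms x.1).fin) hx
    (Finset.prod_ne_zero_iff.2 fun x _ => h0 x.1)
  refine ⟨V, fun H hH => ?_⟩
  exact tup_abs (G := Fam) hRe (pow_pos hl.pos n) hP hP1 r H hH.pow
    (fun i => Submodule.span R (Set.range (f i))) (fun i c => bth (f i) (h i) c)
    (fun i => goodH (hms i) (dvd_mul_right _ _) hR (hm i) (hEE i) (al i) (zh i) (zi i)
      hP.isPrime hP1 hH (hA i)) hV

end main

lemma sd_cT {A : Set ℕ} {pos : Prop} {P : Finset ℕ} (hA : ∀ q ∈ A, q.Prime ∧ q ≠ 2) {J : Type}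
    {T : J → Finset ℕ} (hT : ∀ j, GT A pos P (T j)) (S : Finset J) :
    ∏ j ∈ S, cT (T j) = cT (sd S T) := by
  classical
  induction S using Finset.induction_on with
  | empty => rw [sd_empty, cT_empty, Finset.prod_empty]
  | insert j S hj ih =>
    rw [Finset.prod_insert hj, ih, sd_insert hj, ← cT_mul fun q hq => hA q ((hT j).adm q hq)]

section
variable {ι : Type} [Finite ι] (a b : ι → ℤ) (N n : ι → ℕ) [∀ i, NeZero (N i)] [∀ i, NeZero (n i)]
  (L : ι → Type) [∀ i, Field (L i)] [∀ i, NumberField (L i)]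
  [∀ i, IsCyclotomicExtension {n i} ℚ (L i)]
  (F : (i : ι) → IntermediateField ℚ (L i))
  (f : (i : ι) → CuspForm (Gamma0 (N i) : Subgroup (GL (Fin 2) ℝ)) 2)

omit [∀ i, NeZero (N i)] in
theorem main_tup [∀ i, NeZero (N i)] (hΔ : ∀ i, 4 * a i ^ 3 + 27 * b i ^ 2 ≠ 0)
    (hf : ∀ i, IsFormOf (a i) (b i) (N i) (f i)) (hnN : ∀ i, (n i).Coprime (N i))
    (hbase : ∀ i, ∃ G : ℂ → ℂ, Differentiable ℂ G ∧ (∀ s : ℂ, 3 / 2 < s.re →
      HasProd (fac (K := F i) (a i) (b i) (N i) (co (f i)) s) (G s)) ∧ G 1 ≠ 0) (r : ℕ) :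
    ∃ V : ℕ, ∀ A : Set ℕ, A ⊆ AA a b n L F → ∀ (re : Prop) (T0 : Finset ℕ),
      ∃ K : Finset (Fin r → Finset ℕ), K.card ≤ V ∧
      (∀ k ∈ K, ∀ j, GT A re T0 (k j)) ∧
      ∀ T : Fin r → Finset ℕ, (∀ j, GT A re T0 (T j)) → ∃ k ∈ K,
        ∀ (S : Finset (Fin r)) (i : ι), ∃ G : ℂ → ℂ, Differentiable ℂ G ∧
        (∀ s : ℂ, 3 / 2 < s.re → HasProd (fac (K := F i)
          (a i * disc (sd S fun j => T j ∆ k j) ^ 2)
          (b i * disc (sd S fun j => T j ∆ k j) ^ 3) (N i * dd (sd S fun j => T j ∆ k j))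
          (cD (f i) (sd S fun j => T j ∆ k j)) s) (G s)) ∧ G 1 ≠ 0 := by
  classical
  have : Fintype ι := Fintype.ofFinite ι
  have hYY : ∀ i, Fintype (YY (n i) (L i) (F i)) := fun i => Fintype.ofFinite _
  obtain ⟨lam, h1, h2, h3⟩ := Y18.LP.exists_lam Nat.prime_two
  have hms : ∀ x : (Σ i : ι, YY (n i) (L i) (F i)), MS (N x.1) (bv (f x.1)) (co (f x.1)) :=
    fun x => by
      obtain ⟨w, -, hfr⟩ := (hf x.1).newf
      exact ms_of (hf x.1).hrel hfr
  have hm : ∀ x : (Σ i : ι, YY (n i) (L i) (F i)), x.2.1.conductor ≠ 0 :=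
    fun x => x.2.1.conductor_ne_zero
  -- the base fields
  have h0 : ∀ x : (Σ i : ι, YY (n i) (L i) (F i)), bth (bv (f x.1)) (hp x.2.1)⁻¹ 1 ≠ 0 := by
    rintro ⟨i, χ⟩
    obtain ⟨G, hG1, hG2, hG3⟩ := fieldTw (a := a i) (b := b i) (f := f i) (n i) (L i) (F i) (hΔ i)
      (hf i) (hnN i) (T := ∅) (fun q hq => absurd hq (Finset.notMem_empty q))
    obtain ⟨G0, hG01, hG02, hG03⟩ := hbase i
    have e1 : disc ∅ = 1 := by simp [disc]
    have e2 : dd ∅ = 1 := by simp [dd]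
    rw [e1, e2, cD_empty, one_pow, one_pow, mul_one, mul_one, mul_one] at hG2
    have h4 : G = G0 := entire_unique hG1 hG01 hG2 hG02
    rw [cT_empty] at hG3
    rw [← h4] at hG03
    exact hG3.1 hG03 χ
  let E0 : ℕ := ∏ x : (Σ i : ι, YY (n i) (L i) (F i)), x.2.1.conductor.totient
  have hE0 : 0 < E0 := Finset.prod_pos fun x _ => Nat.totient_pos.2 (Nat.pos_of_ne_zero (hm x))
  have hE : ∀ (x : (Σ i : ι, YY (n i) (L i) (F i))) u, (hp x.2.1)⁻¹ u ^ E0 = 1 := by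
    intro x u
    have h4 : x.2.1.conductor.totient ∣ E0 := Finset.dvd_prod_of_mem
      (fun x : (Σ i : ι, YY (n i) (L i) (F i)) => x.2.1.conductor.totient) (Finset.mem_univ x)
    obtain ⟨k, hk⟩ := h4
    have : NeZero (n x.1) := inferInstance
    rw [hk, pow_mul, MonoidHom.inv_apply, inv_pow, hp_pow, inv_one, one_pow]
  obtain ⟨V, hV⟩ := corrH_tup (ι := Σ i : ι, YY (n i) (L i) (F i)) (N := fun x => N x.1)
    (f := fun x => bv (f x.1)) (a := fun x => co (f x.1)) (m := fun x => x.2.1.conductor)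
    (h := fun x => (hp x.2.1)⁻¹) hms hm h0 Nat.prime_two 1 E0 hE0 hE lam h1
    (by exact_mod_cast h2) r
  refine ⟨2 ^ V, fun A hAA re T0 => ?_⟩
  have hA : ∀ q ∈ A, q.Prime ∧ q ≠ 2 := fun q hq => ⟨(hAA hq).1, (hAA hq).2.1⟩
  have hOk := HH_ok hA re T0 (B := AdH (fun x : (Σ i : ι, YY (n i) (L i) (F i)) => N x.1)
    (fun x => co (f x.1)) (fun x => x.2.1.conductor) (fun x => (hp x.2.1)⁻¹) lam) (by
      intro q hq'
      have hq := hAA hq'
      refine ⟨hq.1, fun x => ?_⟩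
      obtain ⟨h4, h5, h6⟩ := hq.2.2 x.1
      refine ⟨((hf x.1).points q h4).1, (Nat.Prime.coprime_iff_not_dvd hq.1).2
        fun h => h5 (h.trans x.2.1.conductor_dvd_level), ?_⟩
      exact adm_field (hf x.1) h4 h5 h6 h1 (by exact_mod_cast h2) (fun m hm => by
        exact_mod_cast h3 m hm) x.2)
  obtain ⟨K, hK1, hK2, hK3⟩ := hV (HH A hA re T0) hOk
  have hK2' : ∀ e ∈ K, ∃ t : Fin r → Finset ℕ, ∀ j, GT A re T0 (t j) ∧
      e j = cT (t j) := fun e he => by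
    choose t ht using hK2 e he
    exact ⟨t, ht⟩
  choose! t ht using hK2'
  refine ⟨K.image t, Finset.card_image_le.trans hK1, ?_, ?_⟩
  · intro k hk j
    obtain ⟨c, hc, rfl⟩ := Finset.mem_image.1 hk
    exact (ht c hc j).1
  · intro T hT
    obtain ⟨c, hc, h4⟩ := hK3 (fun j => cT (T j)) fun j => ⟨T j, hT j, rfl⟩
    refine ⟨t c, Finset.mem_image_of_mem t hc, fun S i => ?_⟩
    have hTt : ∀ j, GT A re T0 (T j ∆ t c j) := fun j => (hT j).symm hA (ht c hc j).1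
    have h6 := Pool.Agent.U81.MP.sd_gt hA hTt S
    obtain ⟨G, hG1, hG2, hG3⟩ := fieldTw (a := a i) (b := b i) (f := f i) (n i) (L i) (F i) (hΔ i)
      (hf i) (hnN i) (T := sd S fun j => T j ∆ t c j) (fun q hq => by
        obtain ⟨h7, h8, -⟩ := (hAA (h6.adm q hq)).2.2 i
        exact ⟨h7, h8⟩)
    refine ⟨G, hG1, hG2, hG3.2 fun χ => ?_⟩
    have h7 := h4 (fun j => if j ∈ S then 1 else 0) ⟨i, χ⟩
    have h8 : ∏ j, (cT (T j) * c j) ^ (if j ∈ S then 1 else 0) =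
        cT (sd S fun j => T j ∆ t c j) := by
      rw [← sd_cT hA hTt S]
      rw [← Finset.prod_filter_mul_prod_filter_not univ (· ∈ S)]
      rw [Finset.filter_mem_eq_inter, Finset.univ_inter]
      rw [Finset.prod_congr rfl (g := fun j => cT (T j ∆ t c j)) fun j hj => by
        rw [if_pos hj, pow_one, (ht c hc j).2, cT_mul fun q hq => hA q ((hT j).adm q hq)]]
      rw [Finset.prod_eq_one (s := univ.filter (· ∉ S)) fun j hj => by
        rw [if_neg (Finset.mem_filter.1 hj).2, pow_zero], mul_one]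
    rw [h8] at h7
    exact h7

end

end Pool.Agent.U81.AR
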