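import Pool.Agent.U81.AR.Eul
import Mathlib.NumberTheory.NumberField.Cyclotomic.Ideal

/-!
Abelian fields are unramified at the primes which do not divide the conductor.
-/

set_option autoImplicit false

open NumberField IsDedekindDomain

namespace Pool.Agent.U81.AR

open Pool.Agent.K4H55.BD (low mem_low)
open Pool.Agent.U81.MQ (exists_above)

lemma exists_place (K : Type) [Field K] [NumberField K] {q : ℕ} (hq : q.Prime) :
    ∃ v : HeightOneSpectrum (𝓞 K), (q : 𝓞 K) ∈ v.asIdeal := by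
  have hp : (Ideal.span {(q : ℤ)}).IsPrime := (Ideal.span_singleton_prime (by
    exact_mod_cast hq.ne_zero)).2 (Nat.prime_iff_prime_int.1 hq)
  obtain ⟨⟨P, hP, hPo⟩⟩ := (Ideal.span {(q : ℤ)}).nonempty_primesOver (S := 𝓞 K)
  have hmem : (q : 𝓞 K) ∈ P := by
    have h1 : (q : ℤ) ∈ (Ideal.span {(q : ℤ)}) := Ideal.mem_span_singleton_self _
    rw [hPo.over, Ideal.mem_comap] at h1
    simpa using h1
  refine ⟨⟨P, hP, fun h0 => ?_⟩, hmem⟩
  rw [h0, Ideal.mem_bot] at hmem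
  exact hq.ne_zero (by exact_mod_cast hmem)

section cyc
variable (n : ℕ) [NeZero n] (L : Type) [Field L] [NumberField L] [IsCyclotomicExtension {n} ℚ L]

theorem unr_cyc {q : ℕ} (hq : q.Prime) (hqn : ¬ q ∣ n) (u : HeightOneSpectrum (𝓞 L))
    (hu : (q : 𝓞 L) ∈ u.asIdeal) : (q : 𝓞 L) ∉ u.asIdeal ^ 2 := by
  intro h2
  have hqf : Fact q.Prime := ⟨hq⟩
  have hpr : u.asIdeal.IsPrime := u.isPrime
  have hspan : (Ideal.span {(q : ℤ)}).IsMaximal := by
    have hp : (Ideal.span {(q : ℤ)}).IsPrime := (Ideal.span_singleton_prime (by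
      exact_mod_cast hq.ne_zero)).2 (Nat.prime_iff_prime_int.1 hq)
    exact hp.isMaximal (by
      rw [Ne, Ideal.span_singleton_eq_bot]
      exact_mod_cast hq.ne_zero)
  have hlo : u.asIdeal.LiesOver (Ideal.span {(q : ℤ)}) := by
    refine ⟨hspan.eq_of_le (fun h => ?_) ?_⟩
    · have h3 : (1 : 𝓞 L) ∈ u.asIdeal := by
        have h4 : (1 : ℤ) ∈ Ideal.comap (algebraMap ℤ (𝓞 L)) u.asIdeal := by
          rw [show Ideal.comap (algebraMap ℤ (𝓞 L)) u.asIdeal = ⊤ from h]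
          trivial
        rw [Ideal.mem_comap] at h4
        simpa using h4
      exact hpr.ne_top ((Ideal.eq_top_iff_one _).2 h3)
    · rw [Ideal.span_singleton_le_iff_mem]
      show (q : ℤ) ∈ Ideal.comap (algebraMap ℤ (𝓞 L)) u.asIdeal
      rw [Ideal.mem_comap]
      simpa using hu
  have h1 := IsCyclotomicExtension.Rat.ramificationIdx_eq_of_not_dvd q L u.asIdeal (m := n) hqn
  have hmap : (Ideal.span {(q : ℤ)}).map (algebraMap ℤ (𝓞 L)) = Ideal.span {(q : 𝓞 L)} := by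
    rw [Ideal.map_span, Set.image_singleton]
    simp
  have hne : (Ideal.span {(q : ℤ)}).map (algebraMap ℤ (𝓞 L)) ≠ ⊥ := by
    rw [hmap, Ne, Ideal.span_singleton_eq_bot]
    exact_mod_cast hq.ne_zero
  rw [Ideal.IsDedekindDomain.ramificationIdx_eq_multiplicity (Ideal.span {(q : ℤ)}) _ hne] at h1
  have h3 : u.asIdeal ^ 2 ∣ (Ideal.span {(q : ℤ)}).map (algebraMap ℤ (𝓞 L)) := by
    rw [hmap, Ideal.dvd_span_singleton]
    exact h2
  have hfin : FiniteMultiplicity u.asIdeal ((Ideal.span {(q : ℤ)}).map (algebraMap ℤ (𝓞 L))) :=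
    FiniteMultiplicity.of_prime_left (Ideal.prime_of_isPrime u.ne_bot hpr) hne
  have h4 := hfin.le_multiplicity_of_pow_dvd h3
  omega

end cyc

/-- **Unramified primes of abelian fields.** -/
theorem unr_abelian {K : Type} [Field K] [NumberField K] {n : ℕ} (hn : n ≠ 0)
    (hK : Nonempty (K →ₐ[ℚ] CyclotomicField n ℚ)) {q : ℕ} (hq : q.Prime) (hqn : ¬ q ∣ n)
    (v : HeightOneSpectrum (𝓞 K)) (hv : (q : 𝓞 K) ∈ v.asIdeal) : (q : 𝓞 K) ∉ v.asIdeal ^ 2 := by
  intro h2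
  have i1 : NeZero n := ⟨hn⟩
  have i3 : NeZero ((n : ℕ) : ℚ) := ⟨Nat.cast_ne_zero.2 hn⟩
  have i4 : IsCyclotomicExtension {n} ℚ (CyclotomicField n ℚ) :=
    CyclotomicField.isCyclotomicExtension n ℚ
  obtain ⟨φ⟩ := hK
  let : Algebra K (CyclotomicField n ℚ) := φ.toRingHom.toAlgebra
  obtain ⟨u, hu⟩ := exists_above (F := CyclotomicField n ℚ) v
  have h3 : v.asIdeal.map (algebraMap (𝓞 K) (𝓞 (CyclotomicField n ℚ))) ≤ u.asIdeal := by
    rw [Ideal.map_le_iff_le_comap]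
    intro x hx
    rw [Ideal.mem_comap, ← mem_low, hu]
    exact hx
  have h4 : (q : 𝓞 (CyclotomicField n ℚ)) ∈ u.asIdeal ^ 2 := by
    have h5 := Ideal.mem_map_of_mem (algebraMap (𝓞 K) (𝓞 (CyclotomicField n ℚ))) h2
    rw [map_natCast, Ideal.map_pow] at h5
    exact Ideal.pow_right_mono h3 2 h5
  refine unr_cyc n (CyclotomicField n ℚ) hq hqn u ?_ h4
  exact Ideal.pow_le_self two_ne_zero h4

end Pool.Agent.U81.AR
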